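import Pool.Agent.Helper48.BK.Top
import Pool.Agent.Helper18.TR.Final
import Pool.Agent.Helper15.AB.M_MT
import Pool.Agent.Helper66.KN.M_SIEVE
import Pool.Agent.Helper36.KN.M_AVG
import Pool.Agent.Helper8.PB.M_PRP
import Pool.Agent.Helper80.PB.M_BTP
import Pool.Agent.Helper71.PB.M_AVP
import Pool.Agent.Helper22.PB.M_CLP
import Pool.Agent.Helper40.PB.M_PIP
import Pool.Agent.Helper94.PB.M_FMP
import Pool.Agent.Helper55.PB.M_FNP

/-!
# Project PB: assembly
-/

set_option autoImplicit false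

namespace Pool.Agent.Helper30.PB

open Pool.Agent

theorem pSieve : Pool.Agent.Helper93.KN.StSieve := Helper66.KN.hSieve Helper18.TR.fl Helper15.AB.hMT

theorem pPRP : StPRP := Helper8.PB.hPRP pSieve

theorem pBTP : StBTP := Helper80.PB.hBTP pSieve

theorem pPIP : StPIP := Helper40.PB.hPIP Helper48.BK.tSW

theorem pFNP : StFNP :=
  Helper55.PB.hFNP pPRP pBTP (Helper71.PB.hAVP pBTP Helper36.KN.hAvg) Helper22.PB.hCLP (Helper94.PB.hFMP pPIP)

end Pool.Agent.Helper30.PB
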