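import Pool.Agent.Helper93.KN.St
import Pool.Agent.Helper48.BK.StD

/-!
# Project PB (MP_2d2425_nt): `2 n + σ(p ^ 2)` prime with `p` of size `log n log log n`, for a positive proportion of the `n` in every
arithmetic progression.  Statements of the modules, with proofs.

Model: project KN (`Pool/Agent/Helper93/KN/St.lean`, `All.lean`), whose module SIEVE (`Pool.Agent.Helper93.KN.StSieve`, proved:
`Pool.Agent.Helper66.KN.hSieve Pool.Agent.Helper18.TR.fl Pool.Agent.Helper15.AB.hMT`) is used. Proved facts which may be imported: `Pool.Agent.Helper48.BK.tSW : StSW`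
(`Helper48/BK/Top.lean`), `Pool.Agent.Helper36.KN.hAvg : StAvg`, `Pool.Agent.Helper15.AB.{hMT, hDB}`.
-/

set_option autoImplicit false

noncomputable section

namespace Pool.Agent.Helper30.PB

open Finset ArithmeticFunction
open Pool.Agent.Helper93.KN (ff StSieve StAvg)
open Pool.Agent.Helper48.BK (StSW th)

/-- the primes `p ≤ K` with `2 n + σ(p ^ 2)` prime (`σ(p ^ 2) = p ^ 2 + p + 1`) -/
def ps (K n : ℕ) : Finset ℕ := (Icc 1 K).filter (fun p => p.Prime ∧ (2 * n + (p ^ 2 + p + 1)).Prime)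

/-- the primes `p ≤ K` in the class `b` modulo `Q` -/
def pc (K Q b : ℕ) : Finset ℕ := (Icc 1 K).filter (fun p => p.Prime ∧ p % Q = b % Q)

/-- (PRP, assume `hS : StSieve`.) One and two linear forms. PROOF. `S l` = the classes `s < l` with `l ∣ 2 Q s + h` (respectively with `l ∣ 2 Q s + h` or `l ∣ 2 Q s + h'`) if `l ∤ 2 Q`, and `S l = ∅` if `l ∣ 2 Q`; `E = 2 Q` (respectively `E = 2 Q |h - h'|`): for `l ∤ E` there are exactly one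
(respectively exactly two) classes. StSieve with `r = 1` (`r = 2`), `N = M`. If `2 Q m + h` is a prime `P` and `m % l ∈ S l` for a prime `5 ≤ l ≤ M ^ δ` then `l ∣ P`, so `P = l`, `m ≤ M ^ δ ≤ M ^ (1/4)`: at most `M ^ (1/4)` such `m` (respectively `2 M ^ (1/4)`), and this is `≤ C M / (log M) ^ 2`, `ff ≥ 1`. -/
def StPRP : Prop := ∃ C : ℝ, 0 < C ∧ ∀ Q h h' M : ℕ, 1 ≤ Q → 2 ≤ M →
  (((Icc 1 M).filter (fun m : ℕ => (2 * Q * m + h).Prime)).card : ℝ) ≤ C * (M / Real.log M) * ff (2 * Q) ∧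
  (h ≠ h' → (((Icc 1 M).filter (fun m : ℕ => (2 * Q * m + h).Prime ∧ (2 * Q * m + h').Prime)).card : ℝ) ≤
    C * (M / Real.log M ^ 2) * ff (2 * Q * ((h : ℤ) - h').natAbs))

/-- (BTP, assume `hS : StSieve`.) Brun-Titchmarsh. PROOF. Small `K` (`K < 16`): large `C`. `N = ⌊K / d⌋ ≥ ⌊√K⌋ ≥ 4`, `p = t % d + d j`, `0 ≤ j ≤ N`. `S l` = the class of the `j` with `l ∣ t % d + d j` if `l ∤ d`, `S l = ∅` otherwise, `E = d`, `r = 1`: at most `C (N / log N) ff d` of the `j ∈ [1, N]` avoid all `S l`, `5 ≤ l ≤ N ^ δ`.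
If `j % l ∈ S l` then `l ∣ p`, `p = l ≤ N ^ δ`: at most `N ^ (1/4)` such `j`; and `j = 0`. `log N ≥ (log K) / 4`. -/
def StBTP : Prop := ∃ C : ℝ, 0 < C ∧ ∀ K d t : ℕ, 2 ≤ K → 1 ≤ d → d ^ 2 ≤ K →
  ((pc K d t).card : ℝ) ≤ C * (K / (d * Real.log K)) * ff d

/-- (AVP, assume `hB : StBTP`, `hA : StAvg`.) PROOF. `ff (m m') ≤ ff m ff m' ≤ (ff m ^ 2 + ff m' ^ 2) / 2`, and `ff m ^ 2 ≤ C ∏_{l ∣ m} (1 + 1 / √l) ≤ C D(m)`, `D(m) = ∑_{d ∣ m} 1 / √d` (see module AVG of `Pool/Agent/Helper93/KN/St.lean`). For a fixed prime `p ≤ K`: `∑_{p' ≤ K, p' ≠ p} D(|p - p'|) ≤ ∑_{d ≤ K} (1 / √d) #{p' ≤ K : p' ≡ p (d)}`;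
for `d ≤ √K` BTP gives at most `C (K / log K) ∑_d ff d / d ^ (3/2) ≤ C' K / log K` (`∑_{d ≤ y} ff d ≤ C y` by StAvg and Abel summation, or `ff d ≤ C d ^ (1/4)`), and `√K < d ≤ K` contribute at most `∑ (1 / √d)(K / d + 1) ≤ C K ^ (3/4) ≤ C K / log K`. The same for `D(p + p' + 1)` (`p' ≡ - 1 - p` modulo `d`, `d ≤ 2 K + 1`).
There are at most `C K / log K` primes `p ≤ K` (BTP, `d = 1`). -/
def StAVP : Prop := ∃ C : ℝ, 0 < C ∧ ∀ K : ℕ, 2 ≤ K →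
  ∑ v ∈ (((Icc 1 K).filter Nat.Prime) ×ˢ ((Icc 1 K).filter Nat.Prime)).filter (fun v : ℕ × ℕ => v.1 ≠ v.2),
    ff ((((v.1 ^ 2 + v.1 + 1 : ℕ) : ℤ) - ((v.2 ^ 2 + v.2 + 1 : ℕ) : ℤ)).natAbs) ≤ C * (K / Real.log K) ^ 2

/-- (CLP, no hypotheses.) PROOF. `2 a + p ^ 2 + p + 1` is odd. For every odd prime `l ∣ Q` one of `2 a + 3`, `2 a + 1` (the values at `p ≡ 1`, `p ≡ - 1` modulo `l`) is not divisible by `l` (their difference is 2); choose `r_l ∈ {1, l - 1}` accordingly. By the Chinese remainder theorem there is `b` with `b ≡ r_l` modulo `l` for all odd primes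
`l ∣ Q` and `b` odd; it is prime to `Q`. For `p ≡ b` modulo `Q` no odd prime `l ∣ Q` divides `2 a + p ^ 2 + p + 1`. (`Nat.chineseRemainderOfFinset`, or induction over the set of primes.) -/
def StCLP : Prop := ∀ Q a : ℕ, 1 ≤ Q → ∃ b : ℕ, Nat.Coprime b Q ∧
  ∀ p : ℕ, p % Q = b % Q → Nat.Coprime (2 * a + (p ^ 2 + p + 1)) (2 * Q)

/-- (PIP, assume `hS : StSW`.) Primes in a fixed progression. PROOF. StSW with `A = 1`, `B = 1` (`Q ≤ log x` for large `x`): `∑_{X < P ≤ Y, P ≡ v (Q)} th P ≥ (Y - X) / φ(Q) - 2 Y / log Y ≥ Y / (8 Q)` if `X ≤ Y / 2`, `Y` large, and `th P ≤ log Y` is `0` unless `P` is prime (`StTh`, `Pool.Agent.Helper48.BK.hTh`, or the definition of `th`). -/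
def StPIP : Prop := ∀ Q : ℕ, 1 ≤ Q → ∃ Y₀ : ℕ, ∀ X Y v : ℕ, Y₀ ≤ Y → 2 * X ≤ Y → Nat.Coprime v Q →
  (Y : ℝ) / (16 * Q * Real.log Y) ≤ (((Ioc X Y).filter (fun P => P.Prime ∧ P % Q = v % Q)).card : ℝ)

/-- (FMP, assume `hP : StPIP`.) The first moment. PROOF. For `p ∈ pc K Q b` let `h = p ^ 2 + p + 1 ≤ 3 K ^ 2 ≤ N / 4`. The `n ∈ [1, N]`, `n ≡ a (Q)`, with `2 n + h` prime correspond to the primes `P ∈ (h, 2 N + h]` with `P ≡ 2 a + h` modulo `2 Q` (`P - h` is even, `≥ 2`, and `2 n ≡ 2 a` modulo `2 Q` iff `n ≡ a` modulo `Q`; `P ≠ h` odd);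
`2 a + h` is prime to `2 Q`. PIP with `2 Q`, `X = h`, `Y = 2 N + h`: at least `c N / log N`. PIP with `Q`, `X = 0`, `Y = K`: at least `c K / log K` numbers `p` (`K ≥ K₀`). -/
def StFMP : Prop := ∀ Q a b : ℕ, 1 ≤ Q → Nat.Coprime b Q →
  (∀ p : ℕ, p % Q = b % Q → Nat.Coprime (2 * a + (p ^ 2 + p + 1)) (2 * Q)) →
  ∃ c : ℝ, 0 < c ∧ ∃ K₀ N₀ : ℕ, ∀ N K : ℕ, N₀ ≤ N → K₀ ≤ K → 16 * K ^ 2 ≤ N →
    c * (N * K / (Real.log K * Real.log N)) ≤ ∑ p ∈ pc K Q b,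
      (((Icc 1 N).filter (fun n => n % Q = a % Q ∧ (2 * n + (p ^ 2 + p + 1)).Prime)).card : ℝ)

/-- (FNP, assume `hP : StPRP`, `hB : StBTP`, `hA : StAVP`, `hC : StCLP`, `hF : StFMP`.) PROOF. `μ = K / (log K log N)`; `K ≥ C log N log log N` gives `μ ≥ 1` and `K ≥ K₀` for large `C`, `N` (`K / log K` is increasing for `K ≥ 3`; for `K = C log N log log N`, `log K ≤ 2 log log N + log C`). `b` from CLP; for `n ≡ a (Q)` let
`F(n) = #{p ∈ pc K Q b : 2 n + (p ^ 2 + p + 1) prime} ≤ |ps K n|`. First moment `≥ c N μ` (FMP). Second moment: `∑ F ^ 2 = ∑_p #{n} + ∑_{p ≠ p'} #{n}`, `n = a % Q + Q m`, `0 ≤ m ≤ M = ⌊N / Q⌋`, `2 n + h = 2 Q m + (2 (a % Q) + h)`: PRP (`m = 0`: `F ^ 2 ≤ K ^ 2 ≤ N / 16 ≤ N μ ^ 2`), BTP (`d = 1`), AVP and `ff (2 Q m) ≤ ff (2 Q) ff m`: at most `C (N μ + N μ ^ 2 + N) ≤ C' N μ ^ 2`. Cauchy-Schwarz: the `n` with `F(n) ≥ (c / 2) μ` have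
`∑ F ≥ (c / 2) N μ`, so their number is at least `((c / 2) N μ) ^ 2 / (C' N μ ^ 2)`. -/
def StFNP : Prop := ∀ Q a : ℕ, 1 ≤ Q → ∃ c C : ℝ, 0 < c ∧ 0 < C ∧ ∃ N₀ : ℕ, ∀ N : ℕ, N₀ ≤ N → ∀ K : ℕ,
  C * (Real.log N * Real.log (Real.log N)) ≤ K → 16 * K ^ 2 ≤ N →
    c * N ≤ (((Icc 1 N).filter (fun n : ℕ => n % Q = a % Q ∧
      c * (K / (Real.log K * Real.log N)) ≤ ((ps K n).card : ℝ))).card : ℝ)

end Pool.Agent.Helper30.PB
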